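import Mathlib
import Pool.Agent.Helper96_LAX.Stmts

/-!
# LAX, module BLK: one block
-/

set_option autoImplicit false

namespace Pool.Agent.LAX.H27

/-- Number of heads of arcs out of `v` in the new links. -/
lemma heads_le {V : Type} [Finite V] {C : Finset ℕ} {M1 S1 : ℕ → Set (V × V)}
    (hpi : ∀ c ∈ C, PI (M1 c)) (hdm : ∀ c ∈ C, dom (M1 c) ⊆ dom (S1 c)) (v : V) :
    {y | ∃ c ∈ C, (v, y) ∈ M1 c}.ncard ≤ {c | c ∈ C ∧ v ∈ dom (S1 c)}.ncard := by
  classical
  have hfin : {c | c ∈ C ∧ v ∈ dom (S1 c)}.Finite :=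
    Set.Finite.subset C.finite_toSet fun c hc => hc.1
  let f : ℕ → V := fun c => if h : ∃ y, (v, y) ∈ M1 c then h.choose else v
  have hsub : {y | ∃ c ∈ C, (v, y) ∈ M1 c} ⊆ f '' {c | c ∈ C ∧ v ∈ dom (S1 c)} := by
    rintro y ⟨c, hc, hy⟩
    refine ⟨c, ⟨hc, hdm c hc ⟨y, hy⟩⟩, ?_⟩
    have hex : ∃ y, (v, y) ∈ M1 c := ⟨y, hy⟩
    simp only [f]
    rw [dif_pos hex]
    exact (hpi c hc).1 _ _ _ hex.choose_spec hy
  exact (Set.ncard_le_ncard hsub (hfin.image f)).trans (Set.ncard_image_le hfin)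

/-- Number of tails of arcs into `v` in the new links. -/
lemma tails_le {V : Type} [Finite V] {C : Finset ℕ} {M1 S1 : ℕ → Set (V × V)}
    (hpi : ∀ c ∈ C, PI (M1 c)) (hdm : ∀ c ∈ C, ran (M1 c) ⊆ ran (S1 c)) (v : V) :
    {y | ∃ c ∈ C, (y, v) ∈ M1 c}.ncard ≤ {c | c ∈ C ∧ v ∈ ran (S1 c)}.ncard := by
  classical
  have hfin : {c | c ∈ C ∧ v ∈ ran (S1 c)}.Finite :=
    Set.Finite.subset C.finite_toSet fun c hc => hc.1
  let f : ℕ → V := fun c => if h : ∃ y, (y, v) ∈ M1 c then h.choose else v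
  have hsub : {y | ∃ c ∈ C, (y, v) ∈ M1 c} ⊆ f '' {c | c ∈ C ∧ v ∈ ran (S1 c)} := by
    rintro y ⟨c, hc, hy⟩
    refine ⟨c, ⟨hc, hdm c hc ⟨y, hy⟩⟩, ?_⟩
    have hex : ∃ y, (y, v) ∈ M1 c := ⟨y, hy⟩
    simp only [f]
    rw [dif_pos hex]
    exact (hpi c hc).2 _ _ _ hex.choose_spec hy
  exact (Set.ncard_le_ncard hsub (hfin.image f)).trans (Set.ncard_image_le hfin)

theorem blk (hcut : Cut2Stmt) (hlnk : LnkStmt) (hdeg : DegStmt) : BlkStmt := by
  classical
  intro V _ E k q w0 F Z lam h u lo hi e P g Hb b D D' ζ hlam hexp hgk hPk hreg hcls hnum hlo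
    S M n w Eb hsta hnq hhi hEb
  set C : Finset ℕ := Finset.Ico (n * P) ((n + 1) * P) with hC
  set R : Set (V × V) := lft E q F S M with hR
  have hmemC : ∀ c, c ∈ C ↔ n * P ≤ c ∧ c < (n + 1) * P := fun c => Finset.mem_Ico
  have hCq : ∀ c ∈ C, c < q := fun c hc => lt_of_lt_of_le ((hmemC c).mp hc).2 hnq
  have hnP : n * P ≤ (n + 1) * P := Nat.mul_le_mul_right P (Nat.le_succ n)
  have hCcard : C.card ≤ P := by
    rw [hC, Nat.card_Ico, Nat.succ_mul]
    omega
  have hRE : R ⊆ E := fun a ha => ha.1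
  have hd := hdeg V E k q g u w0 P b Hb n F S M Z w hreg hcls hsta (hnP.trans hnq)
  rw [← hR] at hd
  obtain ⟨S1, hS1, hS1few, hS1ok⟩ := hcut V E R k q w0 F Z C Eb lam h u lo hi e P g Hb b D D' ζ
    hlam hexp hgk hreg hRE hcls hCq hCcard hPk
    (fun v => by
      have h1 := (hd v).1
      have h2 := (hd v).2
      have h3 := hhi v
      refine ⟨⟨?_, ?_⟩, ?_, ?_⟩ <;> omega) hEb hnum
  obtain ⟨M1, hM1, hM1d, hM1u⟩ := hlnk V R F S1 C Eb b D D' ζ Hb hnum.hb hnum.hbD hnum.hDD
    (fun c hc => hcls.pi c (hCq c hc)) hS1 hS1few hS1ok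
  -- the classes of the block were untouched
  have hkcC : ∀ c ∈ C, kc F S M c = F c := by
    intro c hc
    obtain ⟨h1, h2⟩ := hsta.unp c ((hmemC c).mp hc).1
    simp [kc, h1, h2]
  let S' : ℕ → Set (V × V) := fun c => if c ∈ C then S1 c else S c
  let M' : ℕ → Set (V × V) := fun c => if c ∈ C then M1 c else M c
  have hS'1 : ∀ c ∈ C, S' c = S1 c := fun c hc => if_pos hc
  have hS'0 : ∀ c, c ∉ C → S' c = S c := fun c hc => if_neg hc
  have hM'1 : ∀ c ∈ C, M' c = M1 c := fun c hc => if_pos hc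
  have hM'0 : ∀ c, c ∉ C → M' c = M c := fun c hc => if_neg hc
  have hkc1 : ∀ c ∈ C, kc F S' M' c = (F c \ S1 c) ∪ M1 c := by
    intro c hc
    simp only [kc]
    rw [hS'1 c hc, hM'1 c hc]
  have hkc0 : ∀ c, c ∉ C → kc F S' M' c = kc F S M c := by
    intro c hc
    simp only [kc]
    rw [hS'0 c hc, hM'0 c hc]
  -- new links avoid the old classes
  have hM1old : ∀ c ∈ C, ∀ d < q, Disjoint (M1 c) (kc F S M d) := by
    intro c hc d hdq
    rw [Set.disjoint_left]
    intro a ha ha'
    exact ((hM1 c hc).1 ha).2 d hdq ha'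
  have hnewd : ∀ c ∈ C, ∀ d < q, c ≠ d → Disjoint (kc F S' M' c) (kc F S' M' d) := by
    intro c hc d hdq hcd
    rw [hkc1 c hc]
    by_cases hdC : d ∈ C
    · rw [hkc1 d hdC]
      have h1 : Disjoint (F c) (F d) := hcls.disj c (hCq c hc) d hdq hcd
      have h2 : Disjoint (M1 c) (F d) := by
        have := hM1old c hc d hdq
        rwa [hkcC d hdC] at this
      have h3 : Disjoint (M1 d) (F c) := by
        have := hM1old d hdC c (hCq c hc)
        rwa [hkcC c hc] at this
      rw [Set.disjoint_union_left, Set.disjoint_union_right, Set.disjoint_union_right]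
      exact ⟨⟨h1.mono Set.sdiff_subset Set.sdiff_subset, (h3.mono_right Set.sdiff_subset).symm⟩,
        h2.mono_right Set.sdiff_subset, hM1d c hc d hdC hcd⟩
    · rw [hkc0 d hdC, Set.disjoint_union_left]
      refine ⟨?_, hM1old c hc d hdq⟩
      have h1 := hsta.disj c (hCq c hc) d hdq hcd
      rw [hkcC c hc] at h1
      exact h1.mono_left Set.sdiff_subset
  -- arcs lost
  have hlost : ∀ a, a ∈ R → a ∉ lft E q F S' M' → ∃ c ∈ C, a ∈ M1 c := by
    intro a ha hna
    by_contra hcon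
    push Not at hcon
    apply hna
    refine ⟨ha.1, fun c hcq hac => ?_⟩
    by_cases hc : c ∈ C
    · rw [hkc1 c hc] at hac
      rcases hac with hac | hac
      · have := ha.2 c hcq
        rw [hkcC c hc] at this
        exact this hac.1
      · exact hcon c hc hac
    · rw [hkc0 c hc] at hac
      exact ha.2 c hcq hac
  have hpi1 : ∀ c ∈ C, PI (M1 c) := fun c hc => (hM1 c hc).2.pi
  refine ⟨S', M', fun v => if v ∈ Eb then w v + Hb else w v, ?_, ?_, ?_, ?_⟩
  · refine ⟨?_, ?_, ?_, ?_, ?_, ?_⟩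
    · -- rel
      intro c hc
      by_cases hcC : c ∈ C
      · rw [hS'1 c hcC, hM'1 c hcC]
        exact (hM1 c hcC).2
      · rw [hS'0 c hcC, hM'0 c hcC]
        refine hsta.rel c ?_
        by_contra h1
        exact hcC ((hmemC c).mpr ⟨not_lt.mp h1, hc⟩)
    · -- unp
      intro c hc
      have hcC : c ∉ C := fun h1 => absurd ((hmemC c).mp h1).2 (not_lt.mpr hc)
      rw [hS'0 c hcC, hM'0 c hcC]
      exact hsta.unp c (hnP.trans hc)
    · -- sub
      intro c hcq
      by_cases hcC : c ∈ C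
      · rw [hM'1 c hcC]
        exact (hM1 c hcC).1.trans hRE
      · rw [hM'0 c hcC]
        exact hsta.sub c hcq
    · -- disj
      intro c hcq d hdq hcd
      by_cases hcC : c ∈ C
      · exact hnewd c hcC d hdq hcd
      · by_cases hdC : d ∈ C
        · exact (hnewd d hdC c hcq hcd.symm).symm
        · rw [hkc0 c hcC, hkc0 d hdC]
          exact hsta.disj c hcq d hdq hcd
    · -- few
      intro m hm v
      by_cases hmn : m = n
      · subst hmn
        have e1 : {c | m * P ≤ c ∧ c < (m + 1) * P ∧ v ∈ dom (S' c)} =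
            {c | c ∈ C ∧ v ∈ dom (S1 c)} := by
          ext c
          constructor
          · rintro ⟨h1, h2, h3⟩
            have hcC : c ∈ C := (hmemC c).mpr ⟨h1, h2⟩
            rw [hS'1 c hcC] at h3
            exact ⟨hcC, h3⟩
          · rintro ⟨hcC, h3⟩
            refine ⟨((hmemC c).mp hcC).1, ((hmemC c).mp hcC).2, ?_⟩
            rw [hS'1 c hcC]
            exact h3
        have e2 : {c | m * P ≤ c ∧ c < (m + 1) * P ∧ v ∈ ran (S' c)} =
            {c | c ∈ C ∧ v ∈ ran (S1 c)} := by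
          ext c
          constructor
          · rintro ⟨h1, h2, h3⟩
            have hcC : c ∈ C := (hmemC c).mpr ⟨h1, h2⟩
            rw [hS'1 c hcC] at h3
            exact ⟨hcC, h3⟩
          · rintro ⟨hcC, h3⟩
            refine ⟨((hmemC c).mp hcC).1, ((hmemC c).mp hcC).2, ?_⟩
            rw [hS'1 c hcC]
            exact h3
        rw [e1, e2]
        exact hS1few v
      · have hmn' : m < n := by omega
        have hle : (m + 1) * P ≤ n * P := Nat.mul_le_mul_right P hmn'
        have hnC : ∀ c, c < (m + 1) * P → c ∉ C := fun c hc h1 =>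
          absurd ((hmemC c).mp h1).1 (not_le.mpr (lt_of_lt_of_le hc hle))
        have e1 : {c | m * P ≤ c ∧ c < (m + 1) * P ∧ v ∈ dom (S' c)} =
            {c | m * P ≤ c ∧ c < (m + 1) * P ∧ v ∈ dom (S c)} := by
          ext c
          constructor
          · rintro ⟨h1, h2, h3⟩
            rw [hS'0 c (hnC c h2)] at h3
            exact ⟨h1, h2, h3⟩
          · rintro ⟨h1, h2, h3⟩
            refine ⟨h1, h2, ?_⟩
            rw [hS'0 c (hnC c h2)]
            exact h3
        have e2 : {c | m * P ≤ c ∧ c < (m + 1) * P ∧ v ∈ ran (S' c)} =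
            {c | m * P ≤ c ∧ c < (m + 1) * P ∧ v ∈ ran (S c)} := by
          ext c
          constructor
          · rintro ⟨h1, h2, h3⟩
            rw [hS'0 c (hnC c h2)] at h3
            exact ⟨h1, h2, h3⟩
          · rintro ⟨h1, h2, h3⟩
            refine ⟨h1, h2, ?_⟩
            rw [hS'0 c (hnC c h2)]
            exact h3
        rw [e1, e2]
        exact hsta.few m hmn' v
    · -- unl
      intro v
      have hqfin : ∀ p : ℕ → Prop, {c | c < q ∧ p c}.Finite := fun p =>
        Set.Finite.subset (Set.finite_Iio q) fun c hc => hc.1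
      have hCfin : ∀ p : ℕ → Prop, {c | c ∈ C ∧ p c}.Finite := fun p =>
        Set.Finite.subset C.finite_toSet fun c hc => hc.1
      constructor
      · have hsub : {c | c < q ∧ v ∈ dom (S' c) ∧ v ∉ dom (M' c)} ⊆
            {c | c < q ∧ v ∈ dom (S c) ∧ v ∉ dom (M c)} ∪
              {c | c ∈ C ∧ v ∈ dom (S1 c) ∧ v ∉ dom (M1 c)} := by
          rintro c ⟨hcq, h1, h2⟩
          by_cases hcC : c ∈ C
          · right
            rw [hS'1 c hcC] at h1
            rw [hM'1 c hcC] at h2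
            exact ⟨hcC, h1, h2⟩
          · left
            rw [hS'0 c hcC] at h1
            rw [hM'0 c hcC] at h2
            exact ⟨hcq, h1, h2⟩
        have h1 := Set.ncard_le_ncard hsub ((hqfin _).union (hCfin _))
        have h2 := h1.trans (Set.ncard_union_le _ _)
        have h3 := (hsta.unl v).1
        split_ifs with hv
        · have h4 : {c | c ∈ C ∧ v ∈ dom (S1 c) ∧ v ∉ dom (M1 c)}.ncard ≤
              {c | c ∈ C ∧ v ∈ dom (S1 c)}.ncard :=
            Set.ncard_le_ncard (fun c hc => ⟨hc.1, hc.2.1⟩) (hCfin _)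
          have h5 := (hS1few v).1
          omega
        · have h4 : {c | c ∈ C ∧ v ∈ dom (S1 c) ∧ v ∉ dom (M1 c)} = ∅ := by
            rw [Set.eq_empty_iff_forall_notMem]
            rintro c ⟨hc, h5, h6⟩
            exact hv ((hM1u c hc v).1 h5 h6)
          rw [h4, Set.ncard_empty] at h2
          omega
      · have hsub : {c | c < q ∧ v ∈ ran (S' c) ∧ v ∉ ran (M' c)} ⊆
            {c | c < q ∧ v ∈ ran (S c) ∧ v ∉ ran (M c)} ∪
              {c | c ∈ C ∧ v ∈ ran (S1 c) ∧ v ∉ ran (M1 c)} := by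
          rintro c ⟨hcq, h1, h2⟩
          by_cases hcC : c ∈ C
          · right
            rw [hS'1 c hcC] at h1
            rw [hM'1 c hcC] at h2
            exact ⟨hcC, h1, h2⟩
          · left
            rw [hS'0 c hcC] at h1
            rw [hM'0 c hcC] at h2
            exact ⟨hcq, h1, h2⟩
        have h1 := Set.ncard_le_ncard hsub ((hqfin _).union (hCfin _))
        have h2 := h1.trans (Set.ncard_union_le _ _)
        have h3 := (hsta.unl v).2
        split_ifs with hv
        · have h4 : {c | c ∈ C ∧ v ∈ ran (S1 c) ∧ v ∉ ran (M1 c)}.ncard ≤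
              {c | c ∈ C ∧ v ∈ ran (S1 c)}.ncard :=
            Set.ncard_le_ncard (fun c hc => ⟨hc.1, hc.2.1⟩) (hCfin _)
          have h5 := (hS1few v).2
          omega
        · have h4 : {c | c ∈ C ∧ v ∈ ran (S1 c) ∧ v ∉ ran (M1 c)} = ∅ := by
            rw [Set.eq_empty_iff_forall_notMem]
            rintro c ⟨hc, h5, h6⟩
            exact hv ((hM1u c hc v).2 h5 h6)
          rw [h4, Set.ncard_empty] at h2
          omega
  · intro v hv
    exact if_neg hv
  · intro v hv
    exact if_pos hv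
  · intro v A
    constructor
    · have hsub : out R v ∩ A ⊆ (out (lft E q F S' M') v ∩ A) ∪ {y | ∃ c ∈ C, (v, y) ∈ M1 c} := by
        rintro y ⟨hy, hyA⟩
        by_cases h1 : (v, y) ∈ lft E q F S' M'
        · exact Or.inl ⟨h1, hyA⟩
        · exact Or.inr (hlost (v, y) hy h1)
      have h1 := Set.ncard_le_ncard hsub (Set.toFinite _)
      have h2 := h1.trans (Set.ncard_union_le _ _)
      have h3 := heads_le hpi1 (fun c hc => (hM1 c hc).2.dm) v
      have h4 := (hS1few v).1
      omega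
    · have hsub : inn R v ∩ A ⊆ (inn (lft E q F S' M') v ∩ A) ∪ {y | ∃ c ∈ C, (y, v) ∈ M1 c} := by
        rintro y ⟨hy, hyA⟩
        by_cases h1 : (y, v) ∈ lft E q F S' M'
        · exact Or.inl ⟨h1, hyA⟩
        · exact Or.inr (hlost (y, v) hy h1)
      have h1 := Set.ncard_le_ncard hsub (Set.toFinite _)
      have h2 := h1.trans (Set.ncard_union_le _ _)
      have h3 := tails_le hpi1 (fun c hc => (hM1 c hc).2.rn) v
      have h4 := (hS1few v).2
      omega

end Pool.Agent.LAX.H27
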