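import Mathlib
import Pool.Agent.Helper96_LAX.Stmts

/-!
# LAX, module GRP: the cuts in one group of classes
-/

set_option autoImplicit false

open Relation

namespace Pool.Agent.LAX.H27

variable {V : Type}

/-- The arc relation. -/
def ar (F : Set (V × V)) (a b : V) : Prop := (a, b) ∈ F

lemma pi_comp {T M : Set (V × V)} (hT : PI T) (hM : PI M) : PI (comp T M) := by
  constructor
  · rintro x y y' ⟨z, hz1, hz2⟩ ⟨z', hz1', hz2'⟩
    have e : z = z' := hT.1 _ _ _ hz1 hz1'
    subst e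
    exact hM.1 _ _ _ hz2 hz2'
  · rintro x x' y ⟨z, hz1, hz2⟩ ⟨z', hz1', hz2'⟩
    have e : z = z' := hM.2 _ _ _ hz2 hz2'
    subst e
    exact hT.2 _ _ _ hz1 hz1'

lemma tg_mono {F G : Set (V × V)} (h : G ⊆ F) {v w : V} (hv : TransGen (ar G) v w) :
    TransGen (ar F) v w := by
  induction hv with
  | single h1 => exact TransGen.single (h h1)
  | tail h1 h2 ih => exact ih.tail (h h2)

/-- Along a closed walk of a sub-relation `G` of the partial injection `F`, everything reachable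
in `F` is reachable in `G` and leads back. -/
lemma back {F G : Set (V × V)} (hF : PI F) (hGF : G ⊆ F) {v w : V}
    (hv : TransGen (ar G) v v) (h : ReflTransGen (ar F) v w) :
    TransGen (ar G) w v ∧ ReflTransGen (ar G) v w := by
  induction h with
  | refl => exact ⟨hv, ReflTransGen.refl⟩
  | tail h1 h2 ih =>
    rename_i a c
    obtain ⟨ih1, ih2⟩ := ih
    obtain ⟨z, hz1, hz2⟩ := (TransGen.head'_iff).mp ih1
    have e : z = c := hF.1 _ _ _ (hGF hz1) h2
    subst e
    refine ⟨?_, ih2.tail hz1⟩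
    exact TransGen.trans_right hz2 hv

/-- A cyclic orbit of a partial injection without closed walks of length `< b` has at least `b`
elements. -/
lemma orbit_ncard [Finite V] {F : Set (V × V)} {b : ℕ} (hF : PI F) (hb : CW F b) {v : V}
    (hv : TransGen (ar F) v v) : b ≤ {w | ReflTransGen (ar F) v w}.ncard := by
  classical
  -- the successor function
  let f : V → V := fun a => if h : ∃ y, (a, y) ∈ F then h.choose else a
  have hf : ∀ a y, (a, y) ∈ F → f a = y := by
    intro a y h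
    have hex : ∃ y, (a, y) ∈ F := ⟨y, h⟩
    have h1 : f a = hex.choose := by
      simp only [f]
      rw [dif_pos hex]
    rw [h1]
    exact hF.1 _ _ _ hex.choose_spec h
  have hstep : ∀ w, ReflTransGen (ar F) v w → (w, f w) ∈ F := by
    intro w hw
    obtain ⟨h1, -⟩ := back hF (le_refl F) hv hw
    obtain ⟨z, hz1, -⟩ := (TransGen.head'_iff).mp h1
    rw [hf w z hz1]
    exact hz1
  have hreach : ∀ i, ReflTransGen (ar F) v (f^[i] v) := by
    intro i
    induction i with
    | zero => exact ReflTransGen.refl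
    | succ i ih =>
      rw [Function.iterate_succ_apply']
      exact ih.tail (hstep _ ih)
  -- periodic
  have hper : ∀ w, TransGen (ar F) v w → ∃ j, 1 ≤ j ∧ f^[j] v = w := by
    intro w hw
    induction hw with
    | single h => exact ⟨1, le_refl 1, by simpa using hf _ _ h⟩
    | tail h1 h2 ih =>
      obtain ⟨j, hj1, hj2⟩ := ih
      refine ⟨j + 1, by omega, ?_⟩
      rw [Function.iterate_succ_apply', hj2]
      exact hf _ _ h2
  obtain ⟨j, hj1, hj2⟩ := hper v hv
  have hjp : Function.IsPeriodicPt f j v := hj2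
  have hp0 : 0 < Function.minimalPeriod f v := hjp.minimalPeriod_pos hj1
  set p := Function.minimalPeriod f v with hp
  have hpb : b ≤ p := by
    refine hb p (fun i => f^[i] v) hp0 (fun i _ => ?_) ?_
    · show (f^[i] v, f^[i + 1] v) ∈ F
      rw [Function.iterate_succ_apply']
      exact hstep _ (hreach i)
    · show f^[p] v = f^[0] v
      exact Function.isPeriodicPt_minimalPeriod f v
  refine hpb.trans ?_
  have hinj : Set.InjOn (fun i => f^[i] v) (Set.Iio p) := Function.iterate_injOn_Iio_minimalPeriod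
  have h1 : ((fun i => f^[i] v) '' Set.Iio p).ncard = p := by
    rw [hinj.ncard_image]
    have : (Set.Iio p) = ((Finset.range p : Finset ℕ) : Set ℕ) := by ext; simp
    rw [this, Set.ncard_coe_finset, Finset.card_range]
  calc p = ((fun i => f^[i] v) '' Set.Iio p).ncard := h1.symm
    _ ≤ _ := Set.ncard_le_ncard (by rintro _ ⟨i, _, rfl⟩; exact hreach i) (Set.toFinite _)

lemma comp_mono {T M M' : Set (V × V)} (h : M ⊆ M') : comp T M ⊆ comp T M' := by
  rintro ⟨a, c⟩ ⟨x, hx1, hx2⟩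
  exact ⟨x, hx1, h hx2⟩

theorem grp (hIT : ITStmt) : GrpStmt := by
  classical
  intro V _ C T M b d hd hdb hTM hcnt
  -- the maps
  let ph : ℕ → Set (V × V) := fun c => comp (T c) (M c)
  have hph : ∀ c ∈ C, PI (ph c) := fun c hc => pi_comp (hTM c hc).1 (hTM c hc).2.1
  -- the parts
  let orb : C → V → Set (C × V) := fun c v => {z | z.1 = c ∧ ReflTransGen (ar (ph c)) v z.2}
  let ι : Type := {P : Set (C × V) // ∃ (c : C) (v : V), TransGen (ar (ph c)) v v ∧ P = orb c v}
  let conf : C × V → C × V → Prop := fun z z' => z.1 ≠ z'.1 ∧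
    (z.2 = z'.2 ∨ ∃ x, (x, z.2) ∈ M z.1 ∧ (x, z'.2) ∈ M z'.1)
  have hconf : ∀ x y, conf x y → conf y x := by
    rintro z z' ⟨h1, h2⟩
    refine ⟨h1.symm, ?_⟩
    rcases h2 with h2 | ⟨x, hx, hx'⟩
    · exact Or.inl h2.symm
    · exact Or.inr ⟨x, hx', hx⟩
  have horb : ∀ (c : C) (v w : V), TransGen (ar (ph c)) v v → ReflTransGen (ar (ph c)) v w →
      orb c w = orb c v := by
    intro c v w hv hw
    obtain ⟨h1, -⟩ := back (hph c c.2) (le_refl _) hv hw
    ext z
    constructor
    · rintro ⟨hz1, hz2⟩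
      exact ⟨hz1, hw.trans hz2⟩
    · rintro ⟨hz1, hz2⟩
      exact ⟨hz1, h1.to_reflTransGen.trans hz2⟩
  have hdisj : ∀ i j : ι, i ≠ j → Disjoint i.1 j.1 := by
    rintro ⟨P, c, v, hv, rfl⟩ ⟨P', c', v', hv', rfl⟩ hne
    rw [Set.disjoint_left]
    rintro ⟨c'', w⟩ ⟨h1, h2⟩ ⟨h3, h4⟩
    simp only at h1 h2 h3 h4
    have e : c = c' := h1.symm.trans h3
    subst e
    apply hne
    apply Subtype.ext
    show orb c v = orb c v'
    rw [← horb c v w hv h2, ← horb c v' w hv' h4]
  have hsize : ∀ i : ι, 4 * (2 * d) ≤ (i.1).ncard := by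
    rintro ⟨P, c, v, hv, rfl⟩
    have h1 := orbit_ncard (hph c c.2) (hTM c c.2).2.2 hv
    have h2 : orb c v = (fun w => (c, w)) '' {w | ReflTransGen (ar (ph c)) v w} := by
      ext ⟨c', w⟩
      constructor
      · rintro ⟨h3, h4⟩
        simp only at h3 h4
        subst h3
        exact ⟨w, h4, rfl⟩
      · rintro ⟨w', h3, h4⟩
        rw [Prod.mk.injEq] at h4
        obtain ⟨rfl, rfl⟩ := h4
        exact ⟨rfl, h3⟩
    show 4 * (2 * d) ≤ (orb c v).ncard
    rw [h2, Set.ncard_image_of_injective _ (fun a a' h => (Prod.mk.injEq _ _ _ _ ▸ h).2)]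
    omega
  -- every element of a part has an arc of `M` into it
  have hcyc : ∀ z : C × V, (∃ i : ι, z ∈ i.1) → TransGen (ar (ph z.1)) z.2 z.2 := by
    rintro ⟨c, w⟩ ⟨⟨P, c', v, hv, rfl⟩, h1, h2⟩
    simp only at h1 h2
    subst h1
    obtain ⟨h3, h4⟩ := back (hph c c.2) (le_refl _) hv h2
    exact TransGen.trans_left h3 h4
  have hran : ∀ z : C × V, (∃ i : ι, z ∈ i.1) → z.2 ∈ ran (M z.1) := by
    intro z hz
    obtain ⟨u, -, hu⟩ := (TransGen.tail'_iff).mp (hcyc z hz)
    obtain ⟨x, -, hx⟩ := hu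
    exact ⟨x, hx⟩
  have hfew : ∀ z : C × V, {y | (∃ i : ι, y ∈ i.1) ∧ conf z y}.ncard ≤ 2 * d := by
    intro z
    -- same head
    let s1 : Set ℕ := {c | c ∈ C ∧ z.2 ∈ ran (M c)}
    let g1 : ℕ → C × V := fun c => if h : c ∈ C then (⟨c, h⟩, z.2) else z
    have hs1 : s1.Finite := Set.Finite.subset C.finite_toSet fun c hc => hc.1
    by_cases hx : ∃ x, (x, z.2) ∈ M z.1
    · obtain ⟨x, hx⟩ := hx
      let s2 : Set ℕ := {c | c ∈ C ∧ x ∈ dom (M c)}
      have hs2 : s2.Finite := Set.Finite.subset C.finite_toSet fun c hc => hc.1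
      let g2 : ℕ → C × V := fun c => if h : c ∈ C ∧ ∃ y, (x, y) ∈ M c then (⟨c, h.1⟩, h.2.choose)
        else z
      have hsub : {y | (∃ i : ι, y ∈ i.1) ∧ conf z y} ⊆ g1 '' s1 ∪ g2 '' s2 := by
        rintro y ⟨hy, hyc⟩
        rcases hyc.2 with h | ⟨x', hx', hx''⟩
        · left
          refine ⟨y.1, ⟨y.1.2, ?_⟩, ?_⟩
          · rw [h]
            exact hran y hy
          · simp only [g1]
            rw [dif_pos y.1.2]
            exact Prod.ext rfl h
        · right
          have e : x' = x := (hTM z.1 z.1.2).2.1.2 _ _ _ hx' hx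
          subst e
          refine ⟨y.1, ⟨y.1.2, ⟨y.2, hx''⟩⟩, ?_⟩
          have h3 : (y.1 : ℕ) ∈ C ∧ ∃ y', (x', y') ∈ M y.1 := ⟨y.1.2, y.2, hx''⟩
          simp only [g2]
          rw [dif_pos h3]
          refine Prod.ext rfl ?_
          exact (hTM y.1 y.1.2).2.1.1 _ _ _ h3.2.choose_spec hx''
      calc _ ≤ (g1 '' s1 ∪ g2 '' s2).ncard :=
            Set.ncard_le_ncard hsub ((hs1.image _).union (hs2.image _))
        _ ≤ (g1 '' s1).ncard + (g2 '' s2).ncard := Set.ncard_union_le _ _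
        _ ≤ s1.ncard + s2.ncard := add_le_add (Set.ncard_image_le hs1) (Set.ncard_image_le hs2)
        _ ≤ 2 * d := by
          have h1 := (hcnt z.2).2
          have h2 := (hcnt x).1
          have h3 : s1.ncard ≤ d := h1
          have h4 : s2.ncard ≤ d := h2
          omega
    · have hsub : {y | (∃ i : ι, y ∈ i.1) ∧ conf z y} ⊆ g1 '' s1 := by
        rintro y ⟨hy, hyc⟩
        rcases hyc.2 with h | ⟨x', hx', hx''⟩
        · refine ⟨y.1, ⟨y.1.2, ?_⟩, ?_⟩
          · rw [h]
            exact hran y hy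
          · simp only [g1]
            rw [dif_pos y.1.2]
            exact Prod.ext rfl h
        · exact absurd ⟨x', hx'⟩ hx
      calc _ ≤ (g1 '' s1).ncard := Set.ncard_le_ncard hsub (hs1.image _)
        _ ≤ s1.ncard := Set.ncard_image_le hs1
        _ ≤ 2 * d := by
          have h1 := (hcnt z.2).2
          have h3 : s1.ncard ≤ d := h1
          omega
  obtain ⟨f, hf1, hf2⟩ := hIT (C × V) ι (fun i => i.1) conf (2 * d) (by omega) hconf hdisj hsize
    hfew
  refine ⟨fun c => {a | a ∈ M c ∧ ∃ (h : c ∈ C) (i : ι), f i = (⟨c, h⟩, a.2)}, ?_, ?_⟩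
  · intro c hc
    refine ⟨fun a ha => ha.1, ?_⟩
    intro v hv
    set X : Set (V × V) := {a | a ∈ M c ∧ ∃ (h : c ∈ C) (i : ι), f i = (⟨c, h⟩, a.2)} with hX
    set G : Set (V × V) := comp (T c) (M c \ X) with hG
    have hGF : G ⊆ ph c := comp_mono Set.sdiff_subset
    have hv' : TransGen (ar G) v v := hv
    have hvF : TransGen (ar (ph c)) v v := tg_mono hGF hv'
    let i : ι := ⟨orb ⟨c, hc⟩ v, ⟨c, hc⟩, v, hvF, rfl⟩
    obtain ⟨h1, h2⟩ : f i ∈ orb ⟨c, hc⟩ v := hf1 i
    obtain ⟨h3, h4⟩ := back (hph c hc) hGF hv' h2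
    have h5 : TransGen (ar G) (f i).2 (f i).2 := TransGen.trans_left h3 h4
    obtain ⟨u, -, hu⟩ := (TransGen.tail'_iff).mp h5
    obtain ⟨x, -, hx⟩ := hu
    exact hx.2 ⟨hx.1, hc, i, Prod.ext h1 rfl⟩
  · intro v
    constructor
    · rw [Set.ncard_le_one (Set.Finite.subset C.finite_toSet fun c hc => hc.1)]
      rintro c ⟨hc, y, hy, hcC, i, hi⟩ c' ⟨hc', y', hy', hcC', i', hi'⟩
      by_contra hne
      have hne' : (⟨c, hcC⟩ : C) ≠ ⟨c', hcC'⟩ := fun h => hne (congrArg Subtype.val h)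
      have hii : i ≠ i' := by
        rintro rfl
        rw [hi] at hi'
        exact hne' (congrArg Prod.fst hi')
      refine hf2 i i' hii ?_
      rw [hi, hi']
      exact ⟨hne', Or.inr ⟨v, hy, hy'⟩⟩
    · rw [Set.ncard_le_one (Set.Finite.subset C.finite_toSet fun c hc => hc.1)]
      rintro c ⟨hc, x, hx, hcC, i, hi⟩ c' ⟨hc', x', hx', hcC', i', hi'⟩
      by_contra hne
      have hne' : (⟨c, hcC⟩ : C) ≠ ⟨c', hcC'⟩ := fun h => hne (congrArg Subtype.val h)
      have hii : i ≠ i' := by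
        rintro rfl
        rw [hi] at hi'
        exact hne' (congrArg Prod.fst hi')
      refine hf2 i i' hii ?_
      rw [hi, hi']
      exact ⟨hne', Or.inl rfl⟩

end Pool.Agent.LAX.H27
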